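import Pool.Agent.W488.IX.Stm
import Pool.Agent.W360.IW.Conc

/-! Project IX: the torus with a general coefficient as an instance of the Galerkin scheme. -/

set_option autoImplicit false

namespace Pool.Agent.W947.IX.Concm

open Pool.Agent.W488.IW Pool.Agent.W488.IX MeasureTheory Set Filter Topology
open Pool.Agent.W360.IW.Conc (mem_mul mulL mulL_coe norm_mulL_le adjoint_mulL norm_bound tpΩ
  sum_coe norm_sq_eq)
open scoped ComplexConjugate ENNReal

/-- a nonnegative Lipschitz constant -/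
noncomputable def cL {m : ℂ × ℂ → ℂ} (hm : Coef m) : ℝ := max (Classical.choose hm.lip) 0

theorem cL_nn {m : ℂ × ℂ → ℂ} (hm : Coef m) : 0 ≤ cL hm := le_max_right _ _

theorem cL_lip {m : ℂ × ℂ → ℂ} (hm : Coef m) (F G : ℂ × ℂ) :
    ‖m F - m G‖ ≤ cL hm * (‖F.1 - G.1‖ + ‖F.2 - G.2‖) :=
  (Classical.choose_spec hm.lip F G).trans
    (mul_le_mul_of_nonneg_right (le_max_left _ _) (by positivity))

theorem continuous_m {m : ℂ × ℂ → ℂ} (hm : Coef m) : Continuous m := by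
  have h : LipschitzWith (Real.toNNReal (cL hm * 2)) m := by
    refine LipschitzWith.of_dist_le_mul fun F G => ?_
    rw [Real.coe_toNNReal _ (by have := cL_nn hm; positivity), dist_eq_norm, dist_eq_norm]
    refine (cL_lip hm F G).trans ?_
    rw [mul_assoc]
    refine mul_le_mul_of_nonneg_left ?_ (cL_nn hm)
    have h1 : ‖F.1 - G.1‖ ≤ ‖F - G‖ := norm_fst_le (F - G)
    have h2 : ‖F.2 - G.2‖ ≤ ‖F - G‖ := norm_snd_le (F - G)
    linarith
  exact h.continuous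

/-! ### the instance on a space with a basis of unimodular functions -/

section inst

variable {Ω : Type} [MeasurableSpace Ω] {μ : Measure Ω}

theorem coef_meas {m : ℂ × ℂ → ℂ} (hm : Coef m) (a b : Lp ℂ 2 μ) :
    AEStronglyMeasurable (fun x => m (a x, b x)) μ :=
  (continuous_m hm).comp_aestronglyMeasurable ((Lp.memLp a).1.prodMk (Lp.memLp b).1)

theorem coef_meas' {m : ℂ × ℂ → ℂ} (hm : Coef m) (a b : Lp ℂ 2 μ) :
    AEStronglyMeasurable (fun x => conj (m (a x, b x))) μ :=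
  Complex.continuous_conj.comp_aestronglyMeasurable (coef_meas hm a b)

/-- the coefficient operator -/
noncomputable def sO {m : ℂ × ℂ → ℂ} (hm : Coef m) (a b : Lp ℂ 2 μ) : Lp ℂ 2 μ →L[ℂ] Lp ℂ 2 μ :=
  mulL (fun x => m (a x, b x)) (coef_meas hm a b) (fun _ => hm.le1 _)

theorem sO_adj {m : ℂ × ℂ → ℂ} (hm : Coef m) (a b : Lp ℂ 2 μ) :
    (sO hm a b).adjoint = mulL (fun x => conj (m (a x, b x))) (coef_meas' hm a b)
      (fun x => by rw [RCLike.norm_conj]; exact hm.le1 _) :=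
  adjoint_mulL _ _ _ _ _

theorem lip_aux {m : ℂ × ℂ → ℂ} (hm : Coef m) (E : Ω → ℂ) (hE : ∀ x, ‖E x‖ = 1) (v : Lp ℂ 2 μ)
    (hv : v =ᵐ[μ] E) (a b a' b' : Lp ℂ 2 μ) :
    ‖sO hm a b v - sO hm a' b' v‖ ≤ cL hm * (‖a - a'‖ + ‖b - b'‖) ∧
    ‖(sO hm a b).adjoint v - (sO hm a' b').adjoint v‖ ≤ cL hm * (‖a - a'‖ + ‖b - b'‖) := by
  have hL : (0 : ℝ) ≤ cL hm := cL_nn hm
  constructor
  · apply norm_bound _ _ _ _ hL
    filter_upwards [hv, Lp.coeFn_sub (sO hm a b v) (sO hm a' b' v), Lp.coeFn_sub a a',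
      Lp.coeFn_sub b b', mulL_coe _ (coef_meas hm a b) (fun _ => hm.le1 _) v,
      mulL_coe _ (coef_meas hm a' b') (fun _ => hm.le1 _) v] with x h1 h2 h3 h4 h5 h6
    rw [h2, h3, h4]
    simp only [Pi.sub_apply]
    unfold sO
    rw [h5, h6, ← sub_mul, norm_mul, h1, hE, mul_one]
    exact cL_lip hm _ _
  · rw [sO_adj, sO_adj]
    apply norm_bound _ _ _ _ hL
    filter_upwards [hv, Lp.coeFn_sub
        (mulL (fun x => conj (m (a x, b x))) (coef_meas' hm a b)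
          (fun x => by rw [RCLike.norm_conj]; exact hm.le1 _) v)
        (mulL (fun x => conj (m (a' x, b' x))) (coef_meas' hm a' b')
          (fun x => by rw [RCLike.norm_conj]; exact hm.le1 _) v), Lp.coeFn_sub a a',
      Lp.coeFn_sub b b', mulL_coe _ (coef_meas' hm a b)
        (fun x => by rw [RCLike.norm_conj]; exact hm.le1 _) v,
      mulL_coe _ (coef_meas' hm a' b')
        (fun x => by rw [RCLike.norm_conj]; exact hm.le1 _) v] with x h1 h2 h3 h4 h5 h6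
    rw [h2, h3, h4]
    simp only [Pi.sub_apply]
    rw [h5, h6, ← sub_mul, norm_mul, h1, hE, mul_one, ← map_sub, RCLike.norm_conj]
    exact cL_lip hm _ _

/-- the data -/
noncomputable def dat {m : ℂ × ℂ → ℂ} {n : ℝ} (hm : Coef m) (hn : 2 < n) (E : Idx → Ω → ℂ)
    (hE : ∀ k x, ‖E k x‖ = 1) (b : HilbertBasis Idx ℂ (Lp ℂ 2 μ))
    (hb : ∀ k, b k =ᵐ[μ] E k) : Dat (Lp ℂ 2 μ) where
  e := b
  s := sO hm
  n := n
  L := cL hm
  hn := hn
  h1 := fun _ _ => norm_mulL_le _ _ _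
  h2 := fun a c a' c' k => (lip_aux hm (E k) (hE k) (b k) (hb k) a c a' c').1
  h3 := fun a c a' c' k => (lip_aux hm (E k) (hE k) (b k) (hb k) a c a' c').2

/-- velocity on `Ω` -/
noncomputable def VΩ (m : ℂ × ℂ → ℂ) (n : ℝ) (E : Idx → Ω → ℂ) (Λ : Finset Idx) (c : Idx → ℂ) (x : Ω) : ℂ :=
  Vm m n (tpΩ E Λ ka c x, tpΩ E Λ kb c x) (tpΩ E Λ (fun k => ka k ^ 2) c x)
    (tpΩ E Λ (fun k => ka k * kb k) c x) (tpΩ E Λ (fun k => kb k ^ 2) c x)

theorem VN_coe {m : ℂ × ℂ → ℂ} {n : ℝ} (hm : Coef m) (hn : 2 < n) (E : Idx → Ω → ℂ)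
    (hE : ∀ k x, ‖E k x‖ = 1) (b : HilbertBasis Idx ℂ (Lp ℂ 2 μ))
    (hb : ∀ k, b k =ᵐ[μ] E k) (Λ : Finset Idx) (c : Idx → ℂ) :
    ((VN (dat hm hn E hE b hb) Λ c : Lp ℂ 2 μ) : Ω → ℂ) =ᵐ[μ] VΩ m n E Λ c := by
  have hs : ∀ w : Idx → ℂ, (sm (dat hm hn E hE b hb) Λ w c : Lp ℂ 2 μ) =ᵐ[μ]
      fun x => tpΩ E Λ w c x := fun w => sum_coe E b hb Λ fun k => w k * c k
  have h1 := hs ka
  have h2 := hs kb
  have h3 := hs fun k => ka k ^ 2
  have h4 := hs fun k => ka k * kb k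
  have h5 := hs fun k => kb k ^ 2
  unfold VN Vf
  set A := sm (dat hm hn E hE b hb) Λ ka c
  set B := sm (dat hm hn E hE b hb) Λ kb c
  set P := sm (dat hm hn E hE b hb) Λ (fun k => ka k ^ 2) c
  set Q := sm (dat hm hn E hE b hb) Λ (fun k => ka k * kb k) c
  set R := sm (dat hm hn E hE b hb) Λ (fun k => kb k ^ 2) c
  change (((n : ℂ) • Q + sO hm A B P + (sO hm A B).adjoint R : Lp ℂ 2 μ) : Ω → ℂ) =ᵐ[μ] _
  rw [sO_adj]
  filter_upwards [h1, h2, h3, h4, h5, Lp.coeFn_add ((n : ℂ) • Q + sO hm A B P)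
      (mulL (fun x => conj (m (A x, B x))) (coef_meas' hm A B)
      (fun x => by rw [RCLike.norm_conj]; exact hm.le1 _) R),
    Lp.coeFn_add ((n : ℂ) • Q) (sO hm A B P), Lp.coeFn_smul (n : ℂ) Q,
    mulL_coe _ (coef_meas hm A B) (fun _ => hm.le1 _) P,
    mulL_coe _ (coef_meas' hm A B)
      (fun x => by rw [RCLike.norm_conj]; exact hm.le1 _) R]
    with x h1 h2 h3 h4 h5 h6 h7 h8 h9 h10
  rw [h6, Pi.add_apply, h7, Pi.add_apply, h8, Pi.smul_apply, h10]
  unfold sO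
  rw [h9, h1, h2, h3, h4, h5, smul_eq_mul]
  rfl

theorem inner_VN {m : ℂ × ℂ → ℂ} {n : ℝ} (hm : Coef m) (hn : 2 < n) (E : Idx → Ω → ℂ)
    (hE : ∀ k x, ‖E k x‖ = 1) (b : HilbertBasis Idx ℂ (Lp ℂ 2 μ))
    (hb : ∀ k, b k =ᵐ[μ] E k) (Λ : Finset Idx) (c : Idx → ℂ) (k : Idx) :
    (inner ℂ ((dat hm hn E hE b hb).e k) (VN (dat hm hn E hE b hb) Λ c) : ℂ)
      = ∫ x, conj (E k x) * VΩ m n E Λ c x ∂μ := by
  rw [L2.inner_def]
  apply integral_congr_ae
  have h2 : ((dat hm hn E hE b hb).e k : Lp ℂ 2 μ) =ᵐ[μ] E k := hb k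
  filter_upwards [VN_coe hm hn E hE b hb Λ c, h2] with x h1 h2
  rw [h1, h2, RCLike.inner_apply, mul_comm]

theorem norm_sub_pr {m : ℂ × ℂ → ℂ} {n : ℝ} (hm : Coef m) (hn : 2 < n) (E : Idx → Ω → ℂ)
    (hE : ∀ k x, ‖E k x‖ = 1) (b : HilbertBasis Idx ℂ (Lp ℂ 2 μ))
    (hb : ∀ k, b k =ᵐ[μ] E k) (Λ Λ' : Finset Idx) (c : Idx → ℂ) :
    ‖VN (dat hm hn E hE b hb) Λ c
        - pr (dat hm hn E hE b hb) Λ' (VN (dat hm hn E hE b hb) Λ c)‖ ^ 2
      = ∫ x, ‖VΩ m n E Λ c x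
        - ∑ k ∈ Λ', (∫ y, conj (E k y) * VΩ m n E Λ c y ∂μ) * E k x‖ ^ 2 ∂μ := by
  apply norm_sq_eq
  unfold pr
  have h1 := sum_coe E b hb Λ' fun k =>
    (inner ℂ ((dat hm hn E hE b hb).e k) (VN (dat hm hn E hE b hb) Λ c) : ℂ)
  have h1' : ((∑ k ∈ Λ', (inner ℂ ((dat hm hn E hE b hb).e k)
      (VN (dat hm hn E hE b hb) Λ c) : ℂ) • (dat hm hn E hE b hb).e k : Lp ℂ 2 μ) : Ω → ℂ)
      =ᵐ[μ] fun x => ∑ k ∈ Λ', (∫ y, conj (E k y) * VΩ m n E Λ c y ∂μ) * E k x := by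
    refine h1.trans (Eventually.of_forall fun x => ?_)
    refine Finset.sum_congr rfl fun k _ => ?_
    rw [inner_VN]
  filter_upwards [VN_coe hm hn E hE b hb Λ c, h1', Lp.coeFn_sub
    (VN (dat hm hn E hE b hb) Λ c) (∑ k ∈ Λ', (inner ℂ ((dat hm hn E hE b hb).e k)
      (VN (dat hm hn E hE b hb) Λ c) : ℂ) • (dat hm hn E hE b hb).e k)] with x h1 h2 h3
  rw [h3, Pi.sub_apply, h1, h2]

end inst

/-! ### the torus -/

section torus

open UnitAddTorus

/-- In this file we normalise the measure on `ℝ / ℤ` to have total volume 1. -/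
noncomputable local instance : MeasureSpace UnitAddCircle := ⟨AddCircle.haarAddCircle⟩

local instance : Measure.IsAddHaarMeasure (volume : Measure UnitAddCircle) :=
  inferInstanceAs (Measure.IsAddHaarMeasure AddCircle.haarAddCircle)

local instance : IsProbabilityMeasure (volume : Measure UnitAddCircle) :=
  inferInstanceAs (IsProbabilityMeasure AddCircle.haarAddCircle)

/-- the torus -/
abbrev TT := UnitAddTorus (Fin 2)

/-- the frequency vector -/
def fv (k : Idx) : Fin 2 → ℤ := ![k.1, k.2]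

theorem fv_inj : Function.Injective fv := by
  intro k l h
  have h0 := congrFun h 0
  have h1 := congrFun h 1
  simp [fv] at h0 h1
  exact Prod.ext h0 h1

theorem fv_surj : Function.Surjective fv := fun m => ⟨(m 0, m 1), by
  funext i; fin_cases i <;> simp [fv]⟩

/-- the exponentials on the torus -/
noncomputable def ET (k : Idx) (x : TT) : ℂ := mFourier (fv k) x

theorem norm_ET (k : Idx) (x : TT) : ‖ET k x‖ = 1 := by
  unfold ET mFourier
  simp only [ContinuousMap.coe_mk, norm_prod, fourier_apply, Circle.norm_coe,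
    Finset.prod_const_one]

theorem ET_coe (k : Idx) (x : V) : ET k (fun i => (x i : UnitAddCircle)) = ek k x := by
  unfold ET mFourier ek fv
  simp only [ContinuousMap.coe_mk, Fin.prod_univ_two, fourier_coe_apply, Matrix.cons_val_zero,
    Matrix.cons_val_one, Complex.ofReal_one, div_one]
  rw [← Complex.exp_add]
  congr 1
  ring

theorem on_T : Orthonormal ℂ (fun k : Idx => (mFourierLp 2 (fv k) : Lp ℂ 2 (volume : Measure TT))) :=
  (orthonormal_mFourier (d := Fin 2)).comp fv fv_inj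

/-- the basis -/
noncomputable def bT : HilbertBasis Idx ℂ (Lp ℂ 2 (volume : Measure TT)) :=
  HilbertBasis.mk on_T (by
    have h := (span_mFourierLp_closure_eq_top (d := Fin 2) (p := 2) (by simp)).ge
    have h2 : Set.range (fun k : Idx => (mFourierLp 2 (fv k) : Lp ℂ 2 (volume : Measure TT)))
        = Set.range (mFourierLp (d := Fin 2) 2) := by
      ext y
      constructor
      · rintro ⟨k, rfl⟩; exact ⟨fv k, rfl⟩
      · rintro ⟨m, rfl⟩
        obtain ⟨k, rfl⟩ := fv_surj m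
        exact ⟨k, rfl⟩
    rw [h2]
    exact h)

theorem bT_coe (k : Idx) : ((bT k : Lp ℂ 2 (volume : Measure TT)) : TT → ℂ) =ᵐ[volume] ET k := by
  have h : bT k = mFourierLp 2 (fv k) := congrFun (HilbertBasis.coe_mk on_T _) k
  rw [h]
  exact coeFn_mFourierLp 2 (fv k)

theorem int_T {F : Type} [NormedAddCommGroup F] [NormedSpace ℝ F] (f : TT → F) (g : V → F)
    (h : ∀ x : V, f (fun i => (x i : UnitAddCircle)) = g x) :
    ∫ x : TT, f x = ∫ x in Icc (0 : V) 1, g x := by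
  rw [integral_preimage f 0]
  have h1 : {x : V | ∀ i, x i ∈ Ioc ((0 : V) i) ((0 : V) i + 1)}
      = Set.pi univ fun i => Ioc ((0 : V) i) ((1 : V) i) := by
    ext x; simp
  have h2 : (Set.pi univ fun i => Ioc ((0 : V) i) ((1 : V) i)) =ᵐ[(volume : Measure V)]
      Icc (0 : V) 1 := Measure.univ_pi_Ioc_ae_eq_Icc
  rw [h1, setIntegral_congr_set h2]
  simp only [h]

theorem tp_coe (Λ : Finset Idx) (w c : Idx → ℂ) (x : V) :
    tpΩ ET Λ w c (fun i => (x i : UnitAddCircle)) = tp Λ w c x := by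
  unfold tpΩ tp
  refine Finset.sum_congr rfl fun k _ => ?_
  rw [ET_coe]

theorem V_coe (m : ℂ × ℂ → ℂ) (n : ℝ) (Λ : Finset Idx) (c : Idx → ℂ) (x : V) :
    VΩ m n ET Λ c (fun i => (x i : UnitAddCircle)) = Vpm m n Λ c x := by
  unfold VΩ Vpm gd pp qq rr
  simp only [tp_coe]

/-- **IW-CONC** -/
theorem main : S_CONCM := by
  intro m n hm hn
  have hI : ∀ (Λ : Finset Idx) (c : Idx → ℂ) (k : Idx),
      ∫ x, conj (ET k x) * VΩ m n ET Λ c x
        = ∫ x in Icc (0 : V) 1, (starRingEnd ℂ) (ek k x) * Vpm m n Λ c x := fun Λ c k =>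
    int_T _ _ fun x => by rw [ET_coe, V_coe]
  refine ⟨Lp ℂ 2 _, inferInstance, inferInstance, inferInstance,
    dat hm hn ET norm_ET bT bT_coe, rfl, ?_, ?_⟩
  · intro Λ c k
    rw [inner_VN]
    exact hI Λ c k
  · intro Λ Λ' c
    rw [norm_sub_pr]
    refine int_T _ _ fun x => ?_
    rw [V_coe]
    congr 2
    congr 1
    refine Finset.sum_congr rfl fun k _ => ?_
    rw [hI, ET_coe]

end torus

end Pool.Agent.W947.IX.Concm
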